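import Mathlib

set_option autoImplicit false

/-!
# Rank bounds for the weight of a word of a binary cyclic code

`ps α c j` is the value at `α ^ j` of the polynomial with coefficients `c`.
-/

namespace Pool.Agent.H5.DZ

open Finset Matrix

variable {K : Type} [Field K] [Algebra (ZMod 2) K] {n : ℕ}

/-- The value at `α ^ j` of the polynomial `∑ c i X ^ i`. -/
noncomputable def ps (α : K) (c : Fin n → ZMod 2) (j : ℕ) : K :=
  ∑ i : Fin n, algebraMap (ZMod 2) K (c i) * α ^ ((i : ℕ) * j)

/-- The support of a word. -/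
def supp (c : Fin n → ZMod 2) : Finset (Fin n) := univ.filter fun i => c i ≠ 0

theorem ps_double (α : K) (c : Fin n → ZMod 2) (j : ℕ) : ps α c (2 * j) = ps α c j ^ 2 := by
  have : CharP K 2 := charP_of_injective_algebraMap (algebraMap (ZMod 2) K).injective 2
  have h := map_sum (frobenius K 2) (fun i : Fin n => algebraMap (ZMod 2) K (c i) *
    α ^ ((i : ℕ) * j)) univ
  simp only [frobenius_def] at h
  unfold ps
  rw [h]
  refine sum_congr rfl fun i _ => ?_
  rw [mul_pow, ← map_pow, ZMod.pow_card, ← pow_mul]
  congr 2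
  ring

theorem ps_double_pow (α : K) (c : Fin n → ZMod 2) (j k : ℕ) :
    ps α c (j * 2 ^ k) = ps α c j ^ (2 ^ k) := by
  induction k with
  | zero => simp
  | succ k ih =>
    rw [show j * 2 ^ (k + 1) = 2 * (j * 2 ^ k) by ring, ps_double, ih, ← pow_mul]
    congr 1
    
theorem ps_mod {α : K} (hα : α ^ n = 1) (c : Fin n → ZMod 2) (j : ℕ) :
    ps α c (j % n) = ps α c j := by
  unfold ps
  refine sum_congr rfl fun i _ => ?_
  congr 1
  rw [pow_mul, pow_mul]
  conv_rhs => rw [← Nat.div_add_mod j n]
  rw [pow_add, pow_mul, ← pow_mul α i n, mul_comm (i : ℕ) n, pow_mul, hα, one_pow, one_pow,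
    one_mul]

theorem ps_supp (α : K) (c : Fin n → ZMod 2) (j : ℕ) :
    ps α c j = ∑ s : {s : Fin n // s ∈ supp c}, algebraMap (ZMod 2) K (c s) *
      α ^ (((s : Fin n) : ℕ) * j) := by
  unfold ps
  rw [← Finset.sum_subset (Finset.subset_univ (supp c))
    (f := fun i : Fin n => algebraMap (ZMod 2) K (c i) * α ^ ((i : ℕ) * j))]
  · exact (Finset.sum_coe_sort (supp c)
      (fun i : Fin n => algebraMap (ZMod 2) K (c i) * α ^ ((i : ℕ) * j))).symm
  · intro x _ hx
    have : c x = 0 := by
      by_contra h
      exact hx (by simp [supp, h])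
    simp [this]

/-- **Triangular certificates.**  If the values `ps (a k + b i)` vanish for `k < i` and are
different from zero for `k = i` then the weight is at least the number of pairs. -/
theorem card_ge_of_tri (α : K) (c : Fin n → ZMod 2) (L : List (ℕ × ℕ))
    (h0 : L.Pairwise (fun x y => ps α c (x.1 + y.2) = 0))
    (h1 : ∀ x ∈ L, ps α c (x.1 + x.2) ≠ 0) : L.length ≤ (supp c).card := by
  classical
  let A : Matrix (Fin L.length) {s : Fin n // s ∈ supp c} K :=
    Matrix.of fun k s => α ^ (((s : Fin n) : ℕ) * (L.get k).1)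
  let B : Matrix {s : Fin n // s ∈ supp c} (Fin L.length) K :=
    Matrix.of fun s i => algebraMap (ZMod 2) K (c s) * α ^ (((s : Fin n) : ℕ) * (L.get i).2)
  have hAB : ∀ k i, (A * B) k i = ps α c ((L.get k).1 + (L.get i).2) := by
    intro k i
    rw [ps_supp, Matrix.mul_apply]
    refine sum_congr rfl fun s _ => ?_
    simp only [A, B, Matrix.of_apply]
    rw [mul_add, pow_add]
    ring
  have htri : (A * B).BlockTriangular OrderDual.toDual := by
    intro k i hki
    have hki' : k < i := by simpa using hki
    rw [hAB]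
    exact List.pairwise_iff_get.1 h0 k i hki'
  have hdet : (A * B).det ≠ 0 := by
    rw [Matrix.det_of_isLowerTriangular _ htri, Finset.prod_ne_zero_iff]
    intro i _
    rw [hAB]
    exact h1 _ (List.get_mem L i)
  have hunit : IsUnit (A * B) := by
    rw [Matrix.isUnit_iff_isUnit_det]
    exact isUnit_iff_ne_zero.2 hdet
  have hrank : (A * B).rank = L.length := by
    rw [Matrix.rank_of_isUnit _ hunit, Fintype.card_fin]
  have h2 : (A * B).rank ≤ B.rank := Matrix.rank_mul_le_right A B
  have h3 : B.rank ≤ Fintype.card {s : Fin n // s ∈ supp c} := Matrix.rank_le_card_height B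
  rw [Fintype.card_coe] at h3
  omega

/-- **Long runs.**  A word whose values vanish on an arithmetic progression which has at least as
many terms as the weight of the word is zero. -/
theorem supp_eq_empty_of_run {α : K} (hα : IsPrimitiveRoot α n) (c : Fin n → ZMod 2) (b v : ℕ)
    (hv : Nat.Coprime v n) (r : ℕ) (hr : ∀ i < r, ps α c (b + v * i) = 0)
    (hw : (supp c).card ≤ r) : supp c = ∅ := by
  classical
  by_contra hne
  set w := (supp c).card with hwdef
  let e : Fin w ≃ {s : Fin n // s ∈ supp c} := (Finset.equivFin (supp c)).symm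
  have hn : α ≠ 0 ∨ w = 0 := by
    by_cases h : w = 0
    · exact Or.inr h
    · left
      obtain ⟨s, hs⟩ := Finset.nonempty_iff_ne_empty.2 hne
      have : n ≠ 0 := by
        intro h0
        subst h0
        exact s.elim0
      exact hα.ne_zero this
  have hα0 : α ≠ 0 := by
    rcases hn with h | h
    · exact h
    · exact absurd (Finset.card_eq_zero.1 h) hne
  have hinj : Function.Injective (fun j : Fin w => α ^ (((e j : Fin n) : ℕ) * v)) := by
    intro i j hij
    simp only at hij
    have hpr : IsPrimitiveRoot (α ^ v) n := hα.pow_of_coprime v hv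
    rw [mul_comm, pow_mul, mul_comm, pow_mul] at hij
    have := hpr.pow_inj (e i : Fin n).isLt (e j : Fin n).isLt hij
    exact e.injective (Subtype.ext (Fin.ext this))
  have key := Matrix.eq_zero_of_forall_pow_sum_mul_pow_eq_zero (R := K) (n := w)
    (f := fun j : Fin w => α ^ (((e j : Fin n) : ℕ) * v))
    (v := fun j : Fin w => algebraMap (ZMod 2) K (c (e j)) * α ^ (((e j : Fin n) : ℕ) * b)) hinj ?_
  · obtain ⟨s, hs⟩ := Finset.nonempty_iff_ne_empty.2 hne
    have h1 := congrFun key (e.symm ⟨s, hs⟩)
    simp only [Equiv.apply_symm_apply, Pi.zero_apply] at h1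
    have h2 : c s ≠ 0 := by
      have := hs
      simp only [supp, mem_filter, mem_univ, true_and] at this
      exact this
    rcases mul_eq_zero.1 h1 with h | h
    · exact h2 ((map_eq_zero _).1 h)
    · exact pow_ne_zero _ hα0 h
  · intro i
    have h1 := hr i (lt_of_lt_of_le i.isLt hw)
    rw [ps_supp, ← e.sum_comp] at h1
    rw [← h1]
    refine sum_congr rfl fun j _ => ?_
    rw [← pow_mul, mul_assoc, ← pow_add]
    congr 2
    ring

end Pool.Agent.H5.DZ
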