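import Mathlib
import Pool.Agent.H5.DZ.Rank

set_option autoImplicit false

/-!
# Certificates for lower bounds of the weight of a word of a binary cyclic code

A certificate is a decision tree: at a branching the value of the word at `α ^ r` is zero or not;
in a leaf there is a triangular certificate; a node `run` shows that the value at `α ^ r` is
not zero, as otherwise there would be a long arithmetic progression of zeros.
The known zeros and nonzeros are bit masks.
-/

namespace Pool.Agent.H5.DZ

open Finset

/-- The bit mask of `r * 2 ^ j mod n`, `j < k`. -/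
def cm (n r : ℕ) : ℕ → ℕ
  | 0 => 0
  | k + 1 => cm n r k ||| (1 <<< (r * 2 ^ k % n))

/-- Certificates. -/
inductive Tree
  | leaf (len code : ℕ)
  | branch (r : ℕ) (nz z : Tree)
  | run (r b v : ℕ) (t : Tree)

/-- The list of pairs coded by a number in base `4096`. -/
def dec : ℕ → ℕ → List (ℕ × ℕ)
  | 0, _ => []
  | k + 1, x => (x % 4096, x / 4096 % 4096) :: dec k (x / 16777216)

/-- Check of a triangular certificate. -/
def tri (n Z T : ℕ) : List (ℕ × ℕ) → Bool
  | [] => true
  | x :: L => Nat.testBit T ((x.1 + x.2) % n) &&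
      (L.all (fun y => Nat.testBit Z ((x.1 + y.2) % n)) && tri n Z T L)

/-- Check of a certificate: every word of length `n = 2 ^ m - 1` with these zeros has weight
larger than `w`. -/
def check (n m w : ℕ) : Tree → ℕ → ℕ → Bool
  | .leaf len code, Z, T => decide (w < len) && tri n Z T (dec len code)
  | .branch r a b, Z, T => check n m w a Z (T ||| cm n r m) && check n m w b (Z ||| cm n r m) T
  | .run r b v t, Z, T => (decide (Nat.Coprime v n) &&
      (List.range w).all (fun i => Nat.testBit (Z ||| cm n r m) ((b + v * i) % n))) &&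
      check n m w t Z (T ||| cm n r m)

theorem length_dec (k x : ℕ) : (dec k x).length = k := by
  induction k generalizing x with
  | zero => rfl
  | succ k ih => simp [dec, ih]

theorem testBit_cm {n r k j : ℕ} (h : Nat.testBit (cm n r k) j = true) :
    ∃ i, j = r * 2 ^ i % n := by
  induction k with
  | zero => simp [cm] at h
  | succ k ih =>
    rw [cm, Nat.testBit_or, Bool.or_eq_true] at h
    rcases h with h | h
    · exact ih h
    · refine ⟨k, ?_⟩
      rw [Nat.one_shiftLeft, Nat.testBit_two_pow] at h
      simpa using (by simpa using h : r * 2 ^ k % n = j).symm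

variable {K : Type} [Field K] [Algebra (ZMod 2) K] {n : ℕ}

theorem ps_cm_zero {α : K} (hα : α ^ n = 1) (c : Fin n → ZMod 2) {r k j : ℕ}
    (h : ps α c r = 0) (hj : Nat.testBit (cm n r k) j = true) : ps α c j = 0 := by
  obtain ⟨i, rfl⟩ := testBit_cm hj
  rw [ps_mod hα, ps_double_pow, h, zero_pow (by positivity)]

theorem ps_cm_ne {α : K} (hα : α ^ n = 1) (c : Fin n → ZMod 2) {r k j : ℕ}
    (h : ps α c r ≠ 0) (hj : Nat.testBit (cm n r k) j = true) : ps α c j ≠ 0 := by
  obtain ⟨i, rfl⟩ := testBit_cm hj
  rw [ps_mod hα, ps_double_pow]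
  exact pow_ne_zero _ h

theorem tri_sound {α : K} (hα : α ^ n = 1) (c : Fin n → ZMod 2) (Z T : ℕ)
    (hZ : ∀ j, Nat.testBit Z j = true → ps α c j = 0)
    (hT : ∀ j, Nat.testBit T j = true → ps α c j ≠ 0) (L : List (ℕ × ℕ))
    (h : tri n Z T L = true) : L.length ≤ (supp c).card := by
  have key : L.Pairwise (fun x y => ps α c (x.1 + y.2) = 0) ∧
      ∀ x ∈ L, ps α c (x.1 + x.2) ≠ 0 := by
    induction L with
    | nil => simp
    | cons x L ih =>
      rw [tri, Bool.and_eq_true, Bool.and_eq_true, List.all_eq_true] at h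
      obtain ⟨h1, h2, h3⟩ := h
      obtain ⟨i1, i2⟩ := ih h3
      refine ⟨List.pairwise_cons.2 ⟨fun y hy => ?_, i1⟩, ?_⟩
      · rw [← ps_mod hα]
        exact hZ _ (h2 y hy)
      · intro y hy
        rcases List.mem_cons.1 hy with rfl | hy
        · rw [← ps_mod hα]
          exact hT _ h1
        · exact i2 y hy
  exact card_ge_of_tri α c L key.1 key.2

theorem check_sound {α : K} (hα : IsPrimitiveRoot α n) (c : Fin n → ZMod 2) (m w : ℕ)
    (hc : supp c ≠ ∅) (t : Tree) : ∀ Z T : ℕ,
    (∀ j, Nat.testBit Z j = true → ps α c j = 0) →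
    (∀ j, Nat.testBit T j = true → ps α c j ≠ 0) → check n m w t Z T = true →
    w < (supp c).card := by
  have hα' : α ^ n = 1 := hα.pow_eq_one
  have or_zero : ∀ Z r, (∀ j, Nat.testBit Z j = true → ps α c j = 0) → ps α c r = 0 →
      ∀ j, Nat.testBit (Z ||| cm n r m) j = true → ps α c j = 0 := by
    intro Z r hZ hr j hj
    rw [Nat.testBit_or, Bool.or_eq_true] at hj
    rcases hj with h | h
    · exact hZ j h
    · exact ps_cm_zero hα' c hr h
  have or_ne : ∀ T r, (∀ j, Nat.testBit T j = true → ps α c j ≠ 0) → ps α c r ≠ 0 →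
      ∀ j, Nat.testBit (T ||| cm n r m) j = true → ps α c j ≠ 0 := by
    intro Z r hZ hr j hj
    rw [Nat.testBit_or, Bool.or_eq_true] at hj
    rcases hj with h | h
    · exact hZ j h
    · exact ps_cm_ne hα' c hr h
  induction t with
  | leaf len code =>
    intro Z T hZ hT h
    rw [check, Bool.and_eq_true, decide_eq_true_eq] at h
    have := tri_sound hα' c Z T hZ hT _ h.2
    rw [length_dec] at this
    omega
  | branch r a b iha ihb =>
    intro Z T hZ hT h
    rw [check, Bool.and_eq_true] at h
    by_cases hr : ps α c r = 0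
    · exact ihb _ _ (or_zero Z r hZ hr) hT h.2
    · exact iha _ _ hZ (or_ne T r hT hr) h.1
  | run r b v t ih =>
    intro Z T hZ hT h
    rw [check, Bool.and_eq_true, Bool.and_eq_true, decide_eq_true_eq, List.all_eq_true] at h
    by_cases hr : ps α c r = 0
    · by_contra hw
      apply hc
      refine supp_eq_empty_of_run hα c b v h.1.1 w (fun i hi => ?_) (not_lt.1 hw)
      rw [← ps_mod hα']
      exact or_zero Z r hZ hr _ (h.1.2 i (List.mem_range.2 hi))
    · exact ih _ _ hZ (or_ne T r hT hr) h.2

end Pool.Agent.H5.DZ
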