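import Pool.Agent.H5.DZ.Cert

set_option autoImplicit false

/-!
# The codes

The words of the binary cyclic code with a given generator polynomial, the minimum distance.
-/

namespace Pool.Agent.H5.DZ

open Finset Polynomial

variable {K : Type} [Field K] [Algebra (ZMod 2) K] {n : ℕ}

/-- The polynomial `∑ c i X ^ i` of a binary word, with coefficients in `K`. -/
noncomputable def wordPoly (K : Type) [Field K] [Algebra (ZMod 2) K] {n : ℕ}
    (c : Fin n → ZMod 2) : K[X] :=
  ∑ i : Fin n, C (algebraMap (ZMod 2) K (c i)) * X ^ (i : ℕ)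

/-- The binary cyclic code of length `n` with the generator polynomial `g`. -/
def cyclicCode (n : ℕ) (g : K[X]) : Set (Fin n → ZMod 2) := {c | g ∣ wordPoly K c}

/-- Minimum Hamming distance. -/
noncomputable def minDist {n : ℕ} (C : Set (Fin n → ZMod 2)) : ℕ :=
  sInf {d : ℕ | ∃ x ∈ C, ∃ y ∈ C, x ≠ y ∧ hammingDist x y = d}

theorem eval_wordPoly (α : K) (c : Fin n → ZMod 2) (j : ℕ) :
    (wordPoly K c).eval (α ^ j) = ps α c j := by
  unfold wordPoly ps
  rw [eval_finsetSum]
  refine sum_congr rfl fun i _ => ?_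
  rw [eval_mul, eval_C, eval_pow, eval_X, ← pow_mul, mul_comm (i : ℕ) j]

theorem wordPoly_sub (x y : Fin n → ZMod 2) :
    wordPoly K (x - y) = wordPoly K x - wordPoly K y := by
  unfold wordPoly
  rw [← Finset.sum_sub_distrib]
  refine sum_congr rfl fun i _ => ?_
  rw [Pi.sub_apply, map_sub, C_sub, sub_mul]

theorem ps_eq_zero_of_dvd {g : K[X]} {α : K} {c : Fin n → ZMod 2} (hc : c ∈ cyclicCode n g)
    {j : ℕ} (hj : g.eval (α ^ j) = 0) : ps α c j = 0 := by
  rw [← eval_wordPoly]
  obtain ⟨q, hq⟩ := hc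
  rw [hq, eval_mul, hj, zero_mul]

theorem even_of_ps_zero (α : K) (c : Fin n → ZMod 2) (h : ps α c 0 = 0) :
    Even (supp c).card := by
  have h1 : algebraMap (ZMod 2) K (∑ i : Fin n, c i) = 0 := by
    rw [map_sum, ← h]
    unfold ps
    refine sum_congr rfl fun i _ => ?_
    simp
  have h2 : ∑ i : Fin n, c i = 0 := (map_eq_zero _).1 h1
  have h3 : ∑ i : Fin n, c i = ((supp c).card : ZMod 2) := by
    rw [← Finset.sum_subset (Finset.subset_univ (supp c))]
    · rw [Finset.card_eq_sum_ones, Nat.cast_sum]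
      refine sum_congr rfl fun i hi => ?_
      have : c i ≠ 0 := by simpa [supp] using hi
      have h4 : ∀ a : ZMod 2, a ≠ 0 → a = ((1 : ℕ) : ZMod 2) := by decide
      exact h4 _ this
    · intro x _ hx
      by_contra hne
      exact hx (by simpa [supp] using hne)
  rw [h3] at h2
  exact (ZMod.natCast_eq_zero_iff_even).1 h2

theorem hammingDist_eq (x y : Fin n → ZMod 2) : hammingDist x y = (supp (x - y)).card := by
  unfold hammingDist supp
  congr 1
  ext i
  simp [sub_ne_zero]

/-- The product of `X - α ^ j`, `j ∈ S`, divides the polynomial of a word which vanishes at these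
points. -/
theorem mem_code_of_zeros {α : K} (hα : IsPrimitiveRoot α n) (S : Finset ℕ)
    (hS : ∀ j ∈ S, j < n) (c : Fin n → ZMod 2) (hc : ∀ j ∈ S, ps α c j = 0) :
    c ∈ cyclicCode n (∏ j ∈ S, (X - C (α ^ j))) := by
  show (∏ j ∈ S, (X - C (α ^ j))) ∣ wordPoly K c
  refine Finset.prod_dvd_of_coprime ?_ ?_
  · intro i hi j hj hij
    refine Polynomial.pairwise_coprime_X_sub_C (s := fun j : {j // j < n} => α ^ (j : ℕ)) ?_
      (i := ⟨i, hS i hi⟩) (j := ⟨j, hS j hj⟩) (by simpa using hij)
    intro a b hab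
    exact Subtype.ext (hα.pow_inj a.2 b.2 hab)
  · intro j hj
    rw [Polynomial.dvd_iff_isRoot, Polynomial.IsRoot, eval_wordPoly]
    exact hc j hj

/-- Lower and upper bounds for the minimum distance. -/
theorem minDist_bounds {g : K[X]} {a b : ℕ} (c0 : Fin n → ZMod 2) (h0 : c0 ∈ cyclicCode n g)
    (hne : supp c0 ≠ ∅) (hb : (supp c0).card ≤ b)
    (hlow : ∀ c ∈ cyclicCode n g, supp c ≠ ∅ → a ≤ (supp c).card) :
    a ≤ minDist (cyclicCode n g) ∧ minDist (cyclicCode n g) ≤ b := by
  have hzero : (0 : Fin n → ZMod 2) ∈ cyclicCode n g := by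
    show g ∣ _
    simp [wordPoly]
  have hmem : (supp c0).card ∈ {d : ℕ | ∃ x ∈ cyclicCode n g, ∃ y ∈ cyclicCode n g,
      x ≠ y ∧ hammingDist x y = d} := by
    refine ⟨c0, h0, 0, hzero, ?_, ?_⟩
    · rintro rfl
      exact hne (by simp [supp])
    · rw [hammingDist_eq, sub_zero]
  constructor
  · refine le_csInf ⟨_, hmem⟩ ?_
    rintro d ⟨x, hx, y, hy, hxy, rfl⟩
    rw [hammingDist_eq]
    refine hlow _ ?_ ?_
    · show g ∣ _
      rw [wordPoly_sub]
      exact dvd_sub hx hy
    · intro h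
      apply hxy
      funext i
      by_contra hi
      have : i ∈ supp (x - y) := by simpa [supp, sub_eq_zero] using hi
      rw [h] at this
      simp at this
  · exact (Nat.sInf_le hmem).trans hb

end Pool.Agent.H5.DZ
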