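import Pool.Agent.H5.DZ.Cert

set_option autoImplicit false

/-! # The certificates for `m = 10` -/

namespace Pool.Agent.H5.DZ

/-- The bit mask of the cosets of the elements of `R`. -/
def mask (n m : ℕ) (R : List ℕ) : ℕ := R.foldl (fun acc r => acc ||| cm n r m) 0

def R10_2 : List ℕ := [0, 1, 5, 9, 15, 17, 23, 27, 29, 33, 39, 43, 45, 51, 53, 57, 63, 71, 75, 77, 83, 85, 89, 95, 99, 101, 105, 111, 119, 123, 125, 147, 149, 159, 165, 175, 183, 187, 189, 207, 215, 219, 221, 231, 235, 237, 245, 255, 343, 347, 363, 383, 447, 479, 495]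

def T10_2 : Tree :=
  (.run 3 751 17 (.run 41 785 17 (.leaf 33 0xe402619826a0ff20125220d0e73482e501b3fc00f13838718f2881320cf27c0843d808727f2403390cc2cd1350fc3633cc2340dd1650393f603314d0cf3360ee39612c39307e39907839f00f3f324c0b40c93390cc33f3420c008e0ba0093f9003000)))

def R10_1 : List ℕ := [0, 3, 5, 9, 15, 17, 23, 27, 29, 33, 39, 43, 45, 51, 53, 57, 63, 71, 75, 77, 83, 85, 89, 95, 99, 101, 105, 111, 119, 123, 125, 147, 149, 159, 165, 175, 183, 187, 189, 207, 215, 219, 221, 231, 235, 237, 245, 255, 343, 347, 363, 383, 447, 479, 495]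

def T10_1 : Tree :=
  (.run 41 751 17 (.run 367 683 17 (.branch 21 (.leaf 35 0x2100801809012538221f3ea0000a81f70c01612c817009a1912983f528c39530a07420e17c08e03526b07720b17929b33536a19428013700a3651ea1f126201220207d08833f20821c2681e038e02d3e70333e11263de0c01e02612df0823cf0480600b239f015000) (.branch 341 (.branch 1 (.leaf 35 0x13c00410d10390d40363d40330c53420d707e2d527f1040fc10130000507b0dd07801106f1100f001406c39f30a3b72f23bd2ec33f36a1150eb3db3fa1803ee3c632e03f0e23b126210d04811304211903c11603f06a24020833f0220300880c0044060001000) (.leaf 35 0x10d0143c50631c41970f50c81012d51070e410405100515030524f13436f16433f14535e3f33010003d63e722c3ed2bc1ef0bb36f33a3cf2da00c3ca1b03be3b709a3f62fe06f0b23e123213d01814301214900c14600f09a21023830f0b80900823cf022030029000)) (.branch 375 (.leaf 35 0x210083950192750790240613353851760673f52c512019b21f0cf06025b0301a719d1dd0001d70181bf37126b1f10ca19421a07d26e17306a0f52681552081502860e127a07124a03318a2972df2fd0603fc1e01fe3de3933e119b3db06a3e70823cf00f39f029000) (.branch 173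 (.branch 351 (.leaf 35 0x291020f30eb0740ac0d13fa35c3b801d3af2453be01733a37438b05f08b0d432e07d32b2513282541a205339a0110900140cf3d41ae0472aa0053a90413a60440e43441a804d06f0350e730309c30f0b42f70ed2fd25e3000782df06c33f0220ff01127f029000) (.leaf 35 0x293fc0881fe28637e3530ff1d31553b40fc0a92fd2a71fb3a937b3563002a42f72ad17d1550f90ac2fa2aa3a91fb27c0561f83ac05327f0a90fc2aa2fa2a72fd2510811d30ff35337e1521803a61fe2a43002802043503813440060a3102082003041201029000)) (.branch 351 (.leaf 35 0xf01a00c3c90003ab3ca00c0121e33fa16430a04d2bf3352f20652ce10723e16d3bb1c124a10d29b14f23b3410be1371ba0f523212509a0c52383442b613403a1432aa10127a1310b813d27f0301bf0f01ef36f01b3cf0061ef1193f011c3ed0353f30033e7029000) (.leaf 35 0x15f01001e0860de13619e0f225e03207e0ca04e05638d0f718f1cc24f10c18c0b62522b70ff25c21f13c1bf19c1ef16c2af0ac18a1d124a1113e815f21a1413951741ea17127a0e12aa0b125d0811f42af32821f2682df1d00c01a839f3a018020833f01127f029000))))))))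


theorem check10_2 : check 1023 10 32 T10_2 (mask 1023 10 R10_2) 0 = true := by decide +kernel

theorem check10_1 : check 1023 10 34 T10_1 (mask 1023 10 R10_1) 0 = true := by decide +kernel

end Pool.Agent.H5.DZ
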