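import Pool.Agent.H5.DZ.Code

set_option autoImplicit false

/-!
# A word of small weight

The word of length `a b` whose coordinates are `1` at the positions congruent to `0` or `1`
modulo `b`.
-/

namespace Pool.Agent.H5.DZ

open Finset Polynomial

/-- The word with the coordinates `1` at the positions congruent to `0` or `1` modulo `b`. -/
def twoLines (n b : ℕ) : Fin n → ZMod 2 := fun i => if (i : ℕ) % b ≤ 1 then 1 else 0

variable {K : Type} [Field K] [Algebra (ZMod 2) K]

theorem ps_twoLines {a b : ℕ} {α : K} (hα : IsPrimitiveRoot α (a * b)) (hb : 2 ≤ b) (j : ℕ)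
    (hj : ¬ a ∣ j ∨ j = 0) : ps α (twoLines (a * b) b) j = 0 := by
  have hchar : CharP K 2 := charP_of_injective_algebraMap (algebraMap (ZMod 2) K).injective 2
  have h1 : ps α (twoLines (a * b) b) j =
      ∑ t : Fin a, ∑ s : Fin b, (if (s : ℕ) ≤ 1 then (1 : K) else 0) *
        α ^ (((s : ℕ) + b * t) * j) := by
    unfold ps
    rw [← finProdFinEquiv.sum_comp, Fintype.sum_prod_type]
    refine sum_congr rfl fun t _ => sum_congr rfl fun s _ => ?_
    have hval : ((finProdFinEquiv (t, s) : Fin (a * b)) : ℕ) = (s : ℕ) + b * t := rfl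
    unfold twoLines
    rw [hval]
    have hmod : ((s : ℕ) + b * t) % b = s := by
      rw [Nat.add_mul_mod_self_left, Nat.mod_eq_of_lt s.isLt]
    rw [hmod]
    split_ifs <;> simp
  rw [h1]
  rcases hj with hj | hj
  · have h2 : ∀ t : Fin a, ∑ s : Fin b, (if (s : ℕ) ≤ 1 then (1 : K) else 0) *
        α ^ (((s : ℕ) + b * t) * j) =
        (∑ s : Fin b, (if (s : ℕ) ≤ 1 then (1 : K) else 0) * α ^ ((s : ℕ) * j)) *
          (α ^ (b * j)) ^ (t : ℕ) := by
      intro t
      rw [Finset.sum_mul]
      refine sum_congr rfl fun s _ => ?_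
      rw [mul_assoc, ← pow_mul, ← pow_add]
      congr 2
      ring
    rw [Finset.sum_congr rfl fun t _ => h2 t, ← Finset.mul_sum]
    have h3 : ∑ t : Fin a, (α ^ (b * j)) ^ (t : ℕ) = 0 := by
      rw [Fin.sum_univ_eq_sum_range (fun t => (α ^ (b * j)) ^ t) a]
      have hne : α ^ (b * j) ≠ 1 := by
        intro h
        apply hj
        have := hα.dvd_of_pow_eq_one _ h
        rw [mul_comm a b] at this
        exact Nat.dvd_of_mul_dvd_mul_left (by omega) this
      have hpow : (α ^ (b * j)) ^ a = 1 := by
        rw [← pow_mul, show b * j * a = (a * b) * j by ring, pow_mul, hα.pow_eq_one, one_pow]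
      have := mul_neg_geom_sum (α ^ (b * j)) a
      rw [hpow, sub_self] at this
      rcases mul_eq_zero.1 this with h | h
      · exact absurd (sub_eq_zero.1 h).symm hne
      · exact h
    rw [h3, mul_zero]
  · subst hj
    have h2 : ∀ t : Fin a, ∑ s : Fin b, (if (s : ℕ) ≤ 1 then (1 : K) else 0) *
        α ^ (((s : ℕ) + b * t) * 0) = 0 := by
      intro t
      simp only [mul_zero, pow_zero, mul_one]
      rw [Fin.sum_univ_eq_sum_range (fun s => if s ≤ 1 then (1 : K) else 0) b]
      have : ∑ s ∈ range b, (if s ≤ 1 then (1 : K) else 0) =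
          ∑ s ∈ range 2, (if s ≤ 1 then (1 : K) else 0) := by
        symm
        apply Finset.sum_subset
        · intro x hx
          rw [mem_range] at hx ⊢
          omega
        · intro x _ hx
          rw [mem_range] at hx
          rw [if_neg (by omega)]
      rw [this, sum_range_succ, sum_range_one]
      simp only [zero_le, if_true, le_refl]
      exact CharTwo.add_self_eq_zero 1
    exact Finset.sum_eq_zero fun t _ => h2 t

theorem card_supp_twoLines {a b : ℕ} (hb : 2 ≤ b) :
    (supp (twoLines (a * b) b)).card = 2 * a := by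
  have h1 : (supp (twoLines (a * b) b)).card =
      ∑ i : Fin (a * b), if (i : ℕ) % b ≤ 1 then 1 else 0 := by
    rw [← Finset.card_filter]
    congr 1
    ext i
    by_cases h : (i : ℕ) % b ≤ 1 <;> simp [supp, twoLines, h]
  rw [h1, ← finProdFinEquiv.sum_comp, Fintype.sum_prod_type]
  have h2 : ∀ t : Fin a, (∑ s : Fin b,
      if ((finProdFinEquiv (t, s) : Fin (a * b)) : ℕ) % b ≤ 1 then 1 else 0) = 2 := by
    intro t
    have h3 : ∀ s : Fin b, ((finProdFinEquiv (t, s) : Fin (a * b)) : ℕ) % b = s := by
      intro s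
      have hval : ((finProdFinEquiv (t, s) : Fin (a * b)) : ℕ) = (s : ℕ) + b * t := rfl
      rw [hval, Nat.add_mul_mod_self_left, Nat.mod_eq_of_lt s.isLt]
    simp only [h3]
    rw [Fin.sum_univ_eq_sum_range (fun s => if s ≤ 1 then 1 else 0) b]
    have : ∑ s ∈ range b, (if s ≤ 1 then 1 else 0) =
        ∑ s ∈ range 2, (if s ≤ 1 then 1 else 0) := by
      symm
      apply Finset.sum_subset
      · intro x hx
        rw [mem_range] at hx ⊢
        omega
      · intro x _ hx
        rw [mem_range] at hx
        rw [if_neg (by omega)]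
    rw [this]
    rfl
  rw [Finset.sum_congr rfl fun t _ => h2 t]
  simp [mul_comm]

theorem ps_twoLines' {n a b : ℕ} (hn : n = a * b) {α : K} (hα : IsPrimitiveRoot α n)
    (hb : 2 ≤ b) (j : ℕ) (hj : ¬ a ∣ j ∨ j = 0) : ps α (twoLines n b) j = 0 := by
  subst hn
  exact ps_twoLines hα hb j hj

theorem card_supp_twoLines' {n a b : ℕ} (hn : n = a * b) (hb : 2 ≤ b) :
    (supp (twoLines n b)).card = 2 * a := by
  subst hn
  exact card_supp_twoLines hb

/-- Zeros of a word given by a list of representatives. -/
theorem mask_sound {n m : ℕ} {α : K} (hα : α ^ n = 1) (c : Fin n → ZMod 2) (R : List ℕ)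
    (hR : ∀ r ∈ R, ps α c r = 0) (Z : ℕ) (hZ : ∀ j, Nat.testBit Z j = true → ps α c j = 0) :
    ∀ j, Nat.testBit (R.foldl (fun acc r => acc ||| cm n r m) Z) j = true → ps α c j = 0 := by
  induction R generalizing Z with
  | nil => simpa using hZ
  | cons r R ih =>
    rw [List.foldl_cons]
    refine ih (fun r hr => hR r (List.mem_cons_of_mem _ hr)) _ ?_
    intro j hj
    rw [Nat.testBit_or, Bool.or_eq_true] at hj
    rcases hj with h | h
    · exact hZ j h
    · exact ps_cm_zero hα c (hR r List.mem_cons_self) h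

end Pool.Agent.H5.DZ
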